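import Pool.Agent.Helper13.UN.CE6

/-!
Block FA of project FR: constancy of a functional on weights, and the roots hit by the weights of value one.
-/

open Module

namespace UN

section
variable {K : Type*} [Field K] [CharZero K] {M : Type*} [AddCommGroup M] [Module K M]
  {B : LinearMap.BilinForm K M} {s : M →ₗ[K] K} {c : K} {Φ X : Finset M}

omit [CharZero K] in
private theorem root_zero63 (h : USL B s c Φ X) {θ : M}
    (hB : ∀ γ ∈ Φ, B γ θ = 0 → s γ = 0 → ∃ z ∈ X, B z θ = 1 ∧ B z γ ≠ 0)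
    (t : M →ₗ[K] K) (ht : ∀ x ∈ X, ∀ y ∈ X, B x θ = 1 → B y θ = 1 → t x = t y)
    {γ : M} (hγ : γ ∈ Φ) (h0 : B γ θ = 0) (hs : s γ = 0) : t γ = 0 := by
  obtain ⟨z, hz, hzθ, hzγ⟩ := hB γ hγ h0 hs
  rcases h.small z hz γ hγ with h1 | h1 | h1
  · have h2 := ht z hz (z + γ) (CR2.xadd_mem h hz hγ h1) hzθ
      (by rw [map_add, LinearMap.add_apply, hzθ, h0, add_zero])
    rw [map_add] at h2
    exact left_eq_add.1 h2
  · exact absurd h1 hzγ
  · have h2 := ht z hz (z - γ) (h.xsub z hz γ hγ h1) hzθ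
      (by rw [map_sub, LinearMap.sub_apply, hzθ, h0, sub_zero])
    rw [map_sub] at h2
    linear_combination h2

private theorem step63 (h : USL B s c Φ X) {θ : M} (hθ : θ ∈ Φ) (hsθ : s θ = 1)
    (hB : ∀ γ ∈ Φ, B γ θ = 0 → s γ = 0 → ∃ z ∈ X, B z θ = 1 ∧ B z γ ≠ 0)
    (t : M →ₗ[K] K) (ht : ∀ x ∈ X, ∀ y ∈ X, B x θ = 1 → B y θ = 1 → t x = t y)
    {x y : M} (hx : x ∈ X) (hy : y ∈ X) (hxy : s x = s y) (hxθ : B x θ = 0) (hyθ : B y θ = 0)
    (hne : t x ≠ t y) :
    ∃ x' ∈ X, s x' = s y ∧ B x' θ = 0 ∧ t x' ≠ t y ∧ B x' y = B x y + 1 := by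
  have hxy' : x ≠ y := fun h1 => hne (by rw [h1])
  obtain ⟨g, hg, hxg, hyg⟩ := h.sep x hx y hy hxy'
  have hxg' : x - g ∈ X := h.xsub x hx g hg hxg
  have hyg' : y + g ∈ X := CR2.xadd_mem h hy hg hyg
  have n1 : (1 : K) ≠ 0 := one_ne_zero
  have n2 : (2 : K) ≠ 0 := two_ne_zero
  have hsg : s g = 0 := by
    have h1 := h.sx _ hxg'
    have h2 := h.sx _ hyg'
    rw [map_sub] at h1
    rw [map_add, ← hxy] at h2
    rcases CR2.vals h hg with h3 | h3 | h3
    · exfalso
      rw [h3] at h1 h2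
      rcases h.sx x hx with h4 | h4
      · rw [h4] at h1
        rcases h1 with h1 | h1
        · exact n1 (by linear_combination h1)
        · exact n2 (by linear_combination h1)
      · rw [h4] at h2
        rcases h2 with h2 | h2
        · exact n2 (by linear_combination -h2)
        · exact n1 (by linear_combination -h2)
    · exact h3
    · exfalso
      rw [h3] at h1 h2
      rcases h.sx x hx with h4 | h4
      · rw [h4] at h2
        rcases h2 with h2 | h2
        · exact n1 (by linear_combination h2)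
        · exact n2 (by linear_combination h2)
      · rw [h4] at h1
        rcases h1 with h1 | h1
        · exact n2 (by linear_combination -h1)
        · exact n1 (by linear_combination -h1)
  have hgθ1 : g ≠ θ := by
    rintro rfl
    exact n1 (hsθ.symm.trans hsg)
  have hgθ2 : g ≠ -θ := by
    rintro rfl
    rw [map_neg, hsθ] at hsg
    exact n1 (by linear_combination -hsg)
  have key : ∀ {u : M}, u ∈ X → s u = s x → B u θ = 1 → s x = c := by
    intro u hu hsu hub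
    have h1 := (CR2.f1' h hu hθ hsθ hub).1
    rw [← hsu, h1]
  have key' : ∀ {u : M}, u ∈ X → s u = s x → B u θ = -1 → s x = c - 1 := by
    intro u hu hsu hub
    have h1 := h.sx _ (CR2.xadd_mem h hu hθ hub)
    rw [map_add, hsθ, hsu] at h1
    rcases h.sx x hx with h2 | h2
    · exfalso
      rw [h2] at h1
      rcases h1 with h1 | h1
      · exact n1 (by linear_combination h1)
      · exact n2 (by linear_combination h1)
    · exact h2
  have e1 : s (x - g) = s x := by rw [map_sub, hsg, sub_zero]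
  have e2 : s (y + g) = s x := by rw [map_add, hsg, add_zero, hxy]
  have e3 : B (x - g) θ = -B g θ := by rw [map_sub, LinearMap.sub_apply, hxθ, zero_sub]
  have e4 : B (y + g) θ = B g θ := by rw [map_add, LinearMap.add_apply, hyθ, zero_add]
  have hgθ : B g θ = 0 := by
    rcases h.pair g hg θ hθ hgθ1 hgθ2 with h1 | h1 | h1
    · exfalso
      have h2 := key hxg' e1 (by rw [e3, h1, neg_neg])
      have h3 := key' hyg' e2 (by rw [e4, h1])
      rw [h2] at h3
      exact n1 (by linear_combination h3)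
    · exact h1
    · exfalso
      have h2 := key' hxg' e1 (by rw [e3, h1])
      have h3 := key hyg' e2 (by rw [e4, h1])
      rw [h2] at h3
      exact n1 (by linear_combination -h3)
  have htg : t g = 0 := root_zero63 h hB t ht hg hgθ hsg
  refine ⟨x - g, hxg', e1.trans hxy, by rw [e3, hgθ, neg_zero], ?_, ?_⟩
  · rw [map_sub, htg, sub_zero]
    exact hne
  · rw [map_sub, LinearMap.sub_apply, h.symm g y, hyg]
    ring

/-- FA1 -/
theorem USL.const (h : USL B s c Φ X) {θ : M} (hθ : θ ∈ Φ) (hsθ : s θ = 1)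
    (hB : ∀ γ ∈ Φ, B γ θ = 0 → s γ = 0 → ∃ z ∈ X, B z θ = 1 ∧ B z γ ≠ 0)
    (t : M →ₗ[K] K) (ht : ∀ x ∈ X, ∀ y ∈ X, B x θ = 1 → B y θ = 1 → t x = t y)
    {x y : M} (hx : x ∈ X) (hy : y ∈ X) (hxy : s x = s y) (hxθ : B x θ = 0) (hyθ : B y θ = 0) :
    t x = t y := by
  by_contra hne
  have key : ∀ n : ℕ, ∃ u ∈ X, s u = s y ∧ B u θ = 0 ∧ t u ≠ t y ∧ B u y = B x y + n := by
    intro n
    induction n with
    | zero => exact ⟨x, hx, hxy, hxθ, hne, by rw [Nat.cast_zero, add_zero]⟩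
    | succ n ih =>
      obtain ⟨u, hu, h1, h2, h3, h4⟩ := ih
      obtain ⟨v, hv, h5, h6, h7, h8⟩ := step63 h hθ hsθ hB t ht hu hy h1 h2 hyθ h3
      refine ⟨v, hv, h5, h6, h7, ?_⟩
      rw [h8, h4]
      push_cast
      ring
  choose f hf _ _ _ hf4 using key
  have hinj : Function.Injective f := by
    intro m n hmn
    have h1 := hf4 m
    rw [hmn, hf4 n] at h1
    exact_mod_cast (add_left_cancel h1).symm
  exact (Set.infinite_of_injective_forall_mem (s := (X : Set M)) hinj fun n => hf n)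
    X.finite_toSet

open Classical in
/-- FA2 -/
theorem USL.hit_half (h : USL B s c Φ X)
    (heq : (X.filter (fun x => s x = c)).card = (X.filter (fun x => s x = c - 1)).card)
    (hneg : ¬ ∀ x ∈ X, -x ∈ X)
    (hr : ∃ a ∈ Φ, s a = 1 ∧ (X.filter (fun x => B x a = 1)).card ≠ 1)
    {θ : M} (hθ : θ ∈ Φ) (hsθ : s θ = 1) :
    ∀ γ ∈ Φ, B γ θ = 0 → s γ = 0 → ∃ z ∈ X, B z θ = 1 ∧ B z γ ≠ 0 := by
  have hex : ∃ α ∈ Φ, s α = 1 ∧ B θ α = 0 := by
    by_cases hadj : ∀ a ∈ Φ, ∀ b ∈ Φ, s a = 1 → s b = 1 → a ≠ b → B a b = 1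
    · exact absurd (h.wedge_neg heq hadj hr) hneg
    push Not at hadj
    obtain ⟨β, hβ, α, hα, hsβ, hsα, hne, hβα⟩ := hadj
    have h0 : B β α = 0 := by
      rcases CR2.f2 h hβ hα hsβ hsα hne with h1 | h1
      · exact h1
      · exact absurd h1 hβα
    by_cases h1 : θ = α
    · refine ⟨β, hβ, hsβ, ?_⟩
      rw [h1, h.symm]
      exact h0
    by_cases h2 : θ = β
    · refine ⟨α, hα, hsα, ?_⟩
      rw [h2]
      exact h0
    rcases CR2.f2 h hθ hα hsθ hsα h1 with h3 | h3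
    · exact ⟨α, hα, hsα, h3⟩
    rcases CR2.f2 h hθ hβ hsθ hsβ h2 with h4 | h4
    · exact ⟨β, hβ, hsβ, h4⟩
    have h5 : θ - α ∈ Φ := h.sub θ hθ α hα h3
    have h6 : B β (θ - α) = 1 := by
      rw [map_sub, h0, sub_zero, h.symm, h4]
    refine ⟨β - (θ - α), h.sub β hβ _ h5 h6, ?_, ?_⟩
    · rw [map_sub, map_sub, hsβ, hsθ, hsα]
      ring
    · rw [map_sub, map_sub, h4, h.two θ hθ, h3]
      ring
  obtain ⟨α, hα, hsα, h0⟩ := hex
  have hr' := CR2.two_weights h hr hθ hsθ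
  obtain ⟨x, hx, y, hy, hxy, hxβ, hyβ⟩ := hr'
  have hr' : ∃ x ∈ X, ∃ y ∈ X, x ≠ y ∧ B x θ = 1 ∧ B y θ = 1 := ⟨x, hx, y, hy, hxy, hxβ, hyβ⟩
  rcases h.dich hα hθ hsα hsθ h0 hr' with h1 | ⟨g₀, hg₀, hβg, hu⟩
  · intro γ hγ hγθ hsγ
    by_contra hcon
    push Not at hcon
    rcases h1 γ hγ (by rw [h.symm, hγθ]) hcon with h2 | h2
    · rw [h2, hsα] at hsγ
      exact one_ne_zero hsγ
    · rw [h2, map_neg, hsα] at hsγ
      exact one_ne_zero (by linear_combination -hsγ : (1 : K) = 0)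
  · exact absurd (h.neg_of_pair hα hθ hsα hsθ h0 hr' hg₀ hβg hu) hneg

end

end UN
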